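import Mathlib

/-!
Permanents modulo a prime by a cyclic group action.
-/

namespace Pool.Agent.V11304.PM

open Finset
open scoped Fin.CommRing Fin.NatCast

/-- A weighted fixed point count modulo a prime. -/
theorem sum_fixed {p : ℕ} [hp : Fact p.Prime] {α : Type*} [Fintype α] [DecidableEq α]
    (f : α → α) (hf : f^[p] = id) (W : α → ZMod p) (hW : ∀ a, W (f a) = W a) :
    ∑ a, W a = ∑ a with f a = a, W a := by
  classical
  have h1 : ∀ s : Finset α, ∑ a ∈ s, W a = ∑ c : ZMod p, ((s.filter fun a => W a = c).card : ZMod p) * c := by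
    intro s
    rw [← Finset.sum_fiberwise_of_maps_to (s := s) (t := Finset.univ) (g := W)
      (fun _ _ => Finset.mem_univ _)]
    refine Finset.sum_congr rfl fun c _ => ?_
    rw [Finset.sum_congr rfl (g := fun _ => c) (fun a ha => (Finset.mem_filter.mp ha).2)]
    simp
  rw [h1 Finset.univ, h1 (Finset.univ.filter fun a => f a = a)]
  refine Finset.sum_congr rfl fun c _ => ?_
  congr 1
  let g : Function.End {a // W a = c} := fun a => ⟨f a.1, by rw [hW, a.2]⟩
  have hg : ∀ (n : ℕ) (a : {a // W a = c}), ((g ^ n) a).1 = f^[n] a.1 := by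
    intro n
    induction n with
    | zero => intro a; rfl
    | succ n ih =>
      intro a
      rw [pow_succ, Function.iterate_succ_apply]
      change ((g ^ n) (g a)).1 = _
      rw [ih]
  have hg1 : g ^ p ^ 1 = 1 := by
    rw [pow_one]
    funext a
    apply Subtype.ext
    rw [hg, hf]
    rfl
  have key := Equiv.Perm.card_fixedPoints_modEq (p := p) (n := 1) (f := g) hg1
  have key2 := (ZMod.natCast_eq_natCast_iff _ _ _).mpr key
  rw [Fintype.card_subtype] at key2
  rw [key2]
  congr 1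
  refine Finset.card_bij (s := (Finset.univ : Finset (Function.fixedPoints g)))
    (fun a _ => a.1.1) ?_ ?_ ?_
  · intro a _
    simp only [Finset.mem_filter, Finset.mem_univ, true_and]
    have h := a.2
    have h2 : g a.1 = a.1 := h
    exact ⟨congrArg Subtype.val h2, a.1.2⟩
  · intro a _ b _ hab
    exact Subtype.ext (Subtype.ext hab)
  · intro b hb
    simp only [Finset.mem_filter, Finset.mem_univ, true_and] at hb
    exact ⟨⟨⟨b, hb.2⟩, Subtype.ext hb.1⟩, Finset.mem_univ _, rfl⟩

/-- The sign `-1` on the last index. -/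
def ep (m : ℕ) (x : Fin (m + 1)) : ZMod (m + 1) := if x = Fin.last m then -1 else 1

theorem ep_sq (m : ℕ) (x : Fin (m + 1)) : ep m x * ep m x = 1 := by
  unfold ep; split_ifs <;> ring

/-- The conjugation by the cyclic shift. -/
def cj (m : ℕ) (σ : Equiv.Perm (Fin (m + 1))) : Equiv.Perm (Fin (m + 1)) :=
  (Equiv.addRight (-1 : Fin (m + 1))).trans (σ.trans (Equiv.addRight (1 : Fin (m + 1))))

theorem cj_apply (m : ℕ) (σ : Equiv.Perm (Fin (m + 1))) (x : Fin (m + 1)) :
    cj m σ x = σ (x - 1) + 1 := by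
  simp [cj, sub_eq_add_neg]

theorem cj_iter (m k : ℕ) (σ : Equiv.Perm (Fin (m + 1))) (x : Fin (m + 1)) :
    (cj m)^[k] σ x = σ (x - k) + k := by
  induction k generalizing σ with
  | zero => simp
  | succ k ih =>
    rw [Function.iterate_succ_apply, ih, cj_apply]
    push_cast
    rw [show x - (k : Fin (m + 1)) - 1 = x - (k + 1) by ring]
    ring

theorem cj_pow (m : ℕ) : (cj m)^[m + 1] = id := by
  funext σ
  apply Equiv.ext
  intro x
  rw [cj_iter]
  have h : ((m + 1 : ℕ) : Fin (m + 1)) = 0 := by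
    simp
  rw [h]
  simp

/-- The general permanent congruence. -/
theorem per_cyc (m : ℕ) [hp : Fact (m + 1).Prime] (a : Matrix (Fin (m + 1)) (Fin (m + 1)) (ZMod (m + 1)))
    (ha : ∀ x y, a (x + 1) (y + 1) = ep m x * ep m y * a x y) :
    a.permanent = ∑ i : Fin (m + 1), ∏ x : Fin (m + 1), a (x + i) x := by
  unfold Matrix.permanent
  rw [sum_fixed (cj m) (cj_pow m) (fun σ => ∏ i, a (σ i) i)]
  · symm
    refine Finset.sum_bij (fun i _ => Equiv.addRight i) ?_ ?_ ?_ ?_
    · intro i _
      simp only [Finset.mem_filter, Finset.mem_univ, true_and]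
      apply Equiv.ext
      intro x
      rw [cj_apply]
      simp only [Equiv.coe_addRight]
      ring
    · intro i _ j _ h
      have := congrArg (fun e : Equiv.Perm (Fin (m + 1)) => e 0) h
      simpa using this
    · intro σ hσ
      simp only [Finset.mem_filter, Finset.mem_univ, true_and] at hσ
      refine ⟨σ 0, Finset.mem_univ _, ?_⟩
      apply Equiv.ext
      intro x
      have h1 : ∀ y, σ (y + 1) = σ y + 1 := by
        intro y
        have := congrArg (fun e : Equiv.Perm (Fin (m + 1)) => e (y + 1)) hσ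
        simp only [cj_apply] at this
        rw [← this]
        simp
      have h2 : ∀ k : ℕ, σ (k : Fin (m + 1)) = k + σ 0 := by
        intro k
        induction k with
        | zero => simp
        | succ k ih => push_cast; rw [h1, ih]; ring
      have h3 := h2 x.val
      rw [Fin.cast_val_eq_self] at h3
      rw [h3]
      rfl
    · intro i _
      rfl
  · intro σ
    have h1 : ∏ i, a (cj m σ i) i = ∏ i, a (cj m σ (i + 1)) (i + 1) :=
      (Equiv.prod_comp (Equiv.addRight (1 : Fin (m + 1))) (fun i => a (cj m σ i) i)).symm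
    rw [h1]
    have h2 : ∀ i, a (cj m σ (i + 1)) (i + 1) = ep m (σ i) * ep m i * a (σ i) i := by
      intro i
      rw [cj_apply, add_sub_cancel_right, ha]
    simp only [h2]
    rw [Finset.prod_mul_distrib, Finset.prod_mul_distrib, Equiv.prod_comp σ (ep m), ← Finset.prod_mul_distrib]
    simp [ep_sq]

/-- The matrix with `c` on the diagonal and `|j-k|` off it. -/
def dm (m : ℕ) (c : ℤ) : Matrix (Fin (m + 1)) (Fin (m + 1)) (ZMod (m + 1)) :=
  Matrix.of fun j k => ((if j = k then c else |((j : ℕ) : ℤ) - ((k : ℕ) : ℤ)| : ℤ) : ZMod (m + 1))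

theorem dm_cyc (m : ℕ) (c : ℤ) (x y : Fin (m + 1)) :
    dm m c (x + 1) (y + 1) = ep m x * ep m y * dm m c x y := by
  unfold dm
  simp only [Matrix.of_apply, add_left_inj]
  by_cases hxy : x = y
  · subst hxy
    rw [if_pos rfl, if_pos rfl, ep_sq, one_mul]
  rw [if_neg hxy, if_neg hxy]
  have hc : ((m : ℕ) : ZMod (m + 1)) = -1 := by
    have : (((m + 1 : ℕ)) : ZMod (m + 1)) = 0 := ZMod.natCast_self _
    push_cast at this
    linear_combination this
  have hne : (x : ℕ) ≠ (y : ℕ) := fun h => hxy (Fin.ext h)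
  unfold ep
  by_cases hx : x = Fin.last m
  · have hy : y ≠ Fin.last m := fun h => hxy (hx.trans h.symm)
    have hyv : (y : ℕ) < m := Fin.val_lt_last hy
    have hxv : (x : ℕ) = m := by rw [hx]; rfl
    rw [if_pos hx, if_neg hy, Fin.val_add_one, Fin.val_add_one, if_pos hx, if_neg hy, hxv]
    have e1 : |((0 : ℕ) : ℤ) - ((y + 1 : ℕ) : ℤ)| = (y : ℕ) + 1 := by
      rw [abs_of_nonpos (by push_cast; omega)]; push_cast; ring
    have e2 : |((m : ℕ) : ℤ) - ((y : ℕ) : ℤ)| = (m : ℤ) - (y : ℕ) := by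
      rw [abs_of_nonneg (by omega)]
    rw [e1, e2]
    push_cast
    rw [hc]
    ring
  · have hxv : (x : ℕ) < m := Fin.val_lt_last hx
    by_cases hy : y = Fin.last m
    · have hyv : (y : ℕ) = m := by rw [hy]; rfl
      rw [if_neg hx, if_pos hy, Fin.val_add_one, Fin.val_add_one, if_neg hx, if_pos hy, hyv]
      have e1 : |((x + 1 : ℕ) : ℤ) - ((0 : ℕ) : ℤ)| = (x : ℕ) + 1 := by
        rw [abs_of_nonneg (by push_cast; omega)]; push_cast; ring
      have e2 : |((x : ℕ) : ℤ) - ((m : ℕ) : ℤ)| = (m : ℤ) - (x : ℕ) := by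
        rw [abs_of_nonpos (by omega)]; ring
      rw [e1, e2]
      push_cast
      rw [hc]
      ring
    · rw [if_neg hx, if_neg hy, Fin.val_add_one, Fin.val_add_one, if_neg hx, if_neg hy]
      push_cast
      rw [add_sub_add_right_eq_sub]
      ring

theorem dm_shift (m : ℕ) (c : ℤ) (i x : Fin (m + 1)) (hi : i ≠ 0) :
    dm m c (x + i) x = (if (x : ℕ) + i < m + 1 then 1 else -1) * ((i : ℕ) : ZMod (m + 1)) := by
  have hne : x + i ≠ x := by
    intro h
    apply hi
    have : x + i = x + 0 := by rw [h, add_zero]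
    exact add_left_cancel this
  unfold dm
  rw [Matrix.of_apply, if_neg hne, Fin.val_add]
  have hc : ((m : ℕ) : ZMod (m + 1)) = -1 := by
    have : (((m + 1 : ℕ)) : ZMod (m + 1)) = 0 := ZMod.natCast_self _
    push_cast at this
    linear_combination this
  have hxl := x.isLt
  have hil := i.isLt
  by_cases h : (x : ℕ) + i < m + 1
  · rw [if_pos h, Nat.mod_eq_of_lt h]
    have e1 : |(((x : ℕ) + (i : ℕ) : ℕ) : ℤ) - ((x : ℕ) : ℤ)| = (i : ℕ) := by
      rw [abs_of_nonneg (by push_cast; omega)]; push_cast; ring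
    rw [e1]
    push_cast
    ring
  · rw [if_neg h, Nat.mod_eq_sub_mod (by omega), Nat.mod_eq_of_lt (by omega)]
    have e1 : |(((x : ℕ) + (i : ℕ) - (m + 1) : ℕ) : ℤ) - ((x : ℕ) : ℤ)| = (m : ℤ) + 1 - (i : ℕ) := by
      rw [Nat.cast_sub (by omega), abs_of_nonpos (by push_cast; omega)]; push_cast; ring
    rw [e1]
    push_cast
    rw [hc]
    ring

theorem prod_sign (m i : ℕ) (hi : i ≤ m) :
    ∏ x : Fin (m + 1), (if (x : ℕ) + i < m + 1 then (1 : ZMod (m + 1)) else -1) = (-1) ^ i := by
  rw [Fin.prod_univ_eq_prod_range (fun k => if k + i < m + 1 then (1 : ZMod (m + 1)) else -1) (m + 1)]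
  rw [show m + 1 = (m + 1 - i) + i by omega, Finset.prod_range_add]
  rw [Finset.prod_congr rfl (g := fun _ => (1 : ZMod (m + 1 - i + i)))]
  · rw [Finset.prod_const_one, one_mul, Finset.prod_congr rfl (g := fun _ => (-1 : ZMod (m + 1 - i + i)))]
    · simp
    · intro k _
      rw [if_neg (by omega)]
  · intro k hk
    rw [Finset.mem_range] at hk
    rw [if_pos (by omega)]

theorem per_dm (m : ℕ) [hp : Fact (m + 1).Prime] (c : ℤ) :
    (dm m c).permanent = c + ∑ k ∈ Finset.range (m + 1), (-1) ^ k * (k : ZMod (m + 1)) := by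
  rw [per_cyc m (dm m c) (dm_cyc m c)]
  rw [← Fin.sum_univ_eq_sum_range (fun k => (-1) ^ k * (k : ZMod (m + 1))) (m + 1)]
  rw [Fin.sum_univ_succ, Fin.sum_univ_succ, ← add_assoc]
  congr 1
  · have : ∀ x : Fin (m + 1), dm m c (x + 0) x = c := by
      intro x
      rw [add_zero]
      simp [dm]
    simp only [this, Finset.prod_const, Finset.card_univ, Fintype.card_fin]
    rw [ZMod.pow_card]
    simp
  · refine Finset.sum_congr rfl fun i _ => ?_
    have hi : i.succ ≠ 0 := Fin.succ_ne_zero i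
    rw [Finset.prod_congr rfl (fun x _ => dm_shift m c i.succ x hi), Finset.prod_mul_distrib,
      prod_sign m i.succ (by have := i.succ.isLt; omega)]
    simp only [Finset.prod_const, Finset.card_univ, Fintype.card_fin]
    rw [ZMod.pow_card]

theorem alt_sum {R : Type*} [CommRing R] (h : ℕ) :
    ∑ k ∈ Finset.range (2 * h + 1), (-1 : R) ^ k * (k : R) = h := by
  induction h with
  | zero => simp
  | succ h ih =>
    rw [show 2 * (h + 1) + 1 = (2 * h + 1) + 1 + 1 by ring, Finset.sum_range_succ,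
      Finset.sum_range_succ, ih]
    have h1 : ((-1 : R)) ^ (2 * h) = 1 := by rw [pow_mul]; simp
    have h2 : ((-1 : R)) ^ (2 * h + 1) = -1 := by rw [pow_succ, h1]; ring
    have h3 : ((-1 : R)) ^ (2 * h + 1 + 1) = 1 := by rw [pow_succ, h2]; ring
    rw [h2, h3]
    push_cast
    ring

theorem main (p : ℕ) (hp : p.Prime) (hp2 : p ≠ 2) (c : ℤ) :
    2 * Matrix.permanent (Matrix.of fun j k : Fin p =>
      if j = k then c else |((j : ℕ) : ℤ) - ((k : ℕ) : ℤ)|) ≡ 2 * c - 1 [ZMOD p] := by
  obtain ⟨m, rfl⟩ : ∃ m, p = m + 1 := ⟨p - 1, by have := hp.pos; omega⟩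
  have : Fact (m + 1).Prime := ⟨hp⟩
  have hodd : Odd (m + 1) := hp.odd_of_ne_two hp2
  obtain ⟨h, hh⟩ : ∃ h, m = 2 * h := by
    obtain ⟨h, hh⟩ := hodd
    exact ⟨h, by omega⟩
  have h1 := per_dm m c
  have h2 : (((Matrix.permanent (Matrix.of fun j k : Fin (m + 1) =>
      if j = k then c else |((j : ℕ) : ℤ) - ((k : ℕ) : ℤ)|) : ℤ)) : ZMod (m + 1)) =
      (dm m c).permanent := by
    unfold Matrix.permanent dm
    rw [Int.cast_sum]
    refine Finset.sum_congr rfl fun σ _ => ?_
    rw [Int.cast_prod]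
    rfl
  rw [← ZMod.intCast_eq_intCast_iff]
  rw [Int.cast_mul, h2, h1]
  have h3 : ∑ k ∈ Finset.range (m + 1), (-1) ^ k * (k : ZMod (m + 1)) = h := by
    subst hh
    exact alt_sum h
  rw [h3]
  have hc : (((m + 1 : ℕ)) : ZMod (m + 1)) = 0 := ZMod.natCast_self _
  push_cast at hc ⊢
  have h4 : (2 * (h : ZMod (m + 1))) + 1 = 0 := by
    have h5 : ((m : ℕ) : ZMod (m + 1)) = ((2 * h : ℕ) : ZMod (m + 1)) := congrArg (fun t : ℕ => (t : ZMod (m + 1))) hh
    rw [h5] at hc
    push_cast at hc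
    exact hc
  linear_combination h4

end Pool.Agent.V11304.PM
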